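import Pool.Agent.helper76.UF.Spec

set_option autoImplicit false

namespace Pool.Agent.UF

open Finset Polynomial NumberField

theorem CO2_finrank (m : ℕ) (K : Type) [Field K] [NumberField K] [IsCyclotomicExtension {2 ^ (m + 1)} ℚ K] :
    Module.finrank ℚ K = 2 ^ m := by
  have hpos : 0 < 2 ^ (m + 1) := by positivity
  have : NeZero (2 ^ (m + 1)) := ⟨hpos.ne'⟩
  rw [IsCyclotomicExtension.finrank (n := 2 ^ (m + 1)) K (cyclotomic.irreducible_rat hpos),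
    Nat.totient_prime_pow_succ Nat.prime_two]
  simp

theorem CO2_cancel {R : Type} [CommRing R] {z w f y : R} {L : ℕ} (hz : w * z = 1)
    (h : f ∣ z ^ L * y) : f ∣ y := by
  have h2 : f ∣ w ^ L * (z ^ L * y) := Dvd.dvd.mul_left h _
  have h3 : w ^ L * (z ^ L * y) = y := by
    rw [← mul_assoc, ← mul_pow, hz, one_pow, one_mul]
  rwa [h3] at h2

theorem CO2_equiv {R : Type} [CommRing R] (s : R ≃+* R) {x y : R} (h : s x ∣ s y) : x ∣ y := by
  have h2 := map_dvd s.symm h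
  simpa using h2

theorem CO2 (h1 : BAS_stmt) (h2 : PRM_stmt) (h3 : CO1_stmt) : CO2_stmt := by
  intro m c r K _ _ _ z hz hr hbound b hb s hcard hodd ρ hρ t ht
  have hcyc : Cyc (2 ^ m) z := h1 m K z hz
  obtain ⟨σ, L, P, Q, hP, hQ, hall⟩ := h3 m (2 ^ (2 ^ c)) r (𝓞 K) z b hcyc hb hr hbound s hcard hodd ρ hρ
  obtain ⟨e, u, he, hu, hdvd, hass⟩ := hall t ht
  have hprime : Prime ((X : (𝓞 K)[X]) ^ e - C ((((2 ^ (2 ^ c) : ℕ)) : 𝓞 K) * u)) :=
    h2 m K (CO2_finrank m K) c e u he ⟨2 ^ (m + 1), by positivity, hu⟩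
  have hbb := hb.2
  -- evaluation
  have heval : ∀ (S : (𝓞 K)[X]) (y : 𝓞 K), S.eval z = z ^ L * y →
      ((X : (𝓞 K)[X]) ^ e - C ((((2 ^ (2 ^ c) : ℕ)) : 𝓞 K) * u)) ∣ S →
      z ^ e - (((2 ^ (2 ^ c) : ℕ)) : 𝓞 K) * u ∣ y := by
    intro S y hS hd
    have h := map_dvd (evalRingHom z) hd
    simp only [coe_evalRingHom, eval_sub, eval_pow, eval_X, eval_C] at h
    rw [hS] at h
    exact CO2_cancel hb.1 h
  have key : z ^ e - (((2 ^ (2 ^ c) : ℕ)) : 𝓞 K) * u ∣ σ ρ ∨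
      z ^ e - (((2 ^ (2 ^ c) : ℕ)) : 𝓞 K) * u ∣ σ (b ρ) := by
    rcases hprime.dvd_or_dvd hdvd with h | h
    · exact Or.inl (heval P _ hP h)
    · exact Or.inr (heval Q _ hQ h)
  rcases hass with ha | ha
  · rcases key with h | h
    · exact Or.inl (CO2_equiv σ (ha.dvd_iff_dvd_left.mp h))
    · exact Or.inr (CO2_equiv σ (ha.dvd_iff_dvd_left.mp h))
  · rcases key with h | h
    · right
      have h4 := CO2_equiv σ (ha.dvd_iff_dvd_left.mp h)
      have h5 := map_dvd b h4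
      rwa [hbb] at h5
    · left
      have h4 := CO2_equiv σ (ha.dvd_iff_dvd_left.mp h)
      exact CO2_equiv b h4

end Pool.Agent.UF
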